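import Mathlib
set_option autoImplicit false
open Real

namespace Pool.Agent.Lib.MP_9703cd_gt

/-- two linear equations with nonzero determinant -/
lemma lin_zero {a b x1 y1 x2 y2 : ℝ} (h1 : a * x1 + b * y1 = 0) (h2 : a * x2 + b * y2 = 0)
    (hJ : x1 * y2 - x2 * y1 ≠ 0) : a = 0 ∧ b = 0 := by
  constructor
  · have : a * (x1 * y2 - x2 * y1) = 0 := by linear_combination y2 * h1 - y1 * h2
    exact (mul_eq_zero.mp this).resolve_right hJ
  · have : b * (x1 * y2 - x2 * y1) = 0 := by linear_combination x1 * h2 - x2 * h1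
    exact (mul_eq_zero.mp this).resolve_right hJ

/-- the polynomial identity behind the Codazzi computation -/
lemma poly_id {x y W y1 y2 : ℝ} (hW : W ^ 2 = 1 + y ^ 4 + 4 * x ^ 2 * y ^ 2)
    (hR : y * W * (y2 ^ 2 - y1 ^ 2) + x * (1 - 3 * y ^ 4) * y1 * y2 = 0)
    {x1 x2 lam : ℝ}
    (hx1 : (1 + y ^ 4) * x1 = W * y2 - 2 * x * y ^ 3 * y1)
    (hx2 : (1 + y ^ 4) * x2 = - (W * y1) - 2 * x * y ^ 3 * y2)
    (hlam : (1 + y ^ 4) * lam = W ^ 2 * (y1 ^ 2 + y2 ^ 2)) :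
    2 * ((1 + y ^ 4) * (4 * y ^ 2 + x ^ 2 * (1 + 9 * y ^ 4))) *
      ((2 * y * x1 * y1 + x * y1 ^ 2) * (4 * y ^ 3 * y2 * x1 * x2
          + (2 * x2 * y ^ 3 + 6 * x * y ^ 2 * y2) * (x1 * y2 + x2 * y1)
          + (8 * x * x2 * y ^ 2 + 8 * x ^ 2 * y * y2) * y1 * y2)
        - lam * (y2 * (x1 * y2 + x2 * y1) + x2 * y1 * y2))
      + ((2 * y * x2 * y2 + x * y2 ^ 2) - (2 * y * x1 * y1 + x * y1 ^ 2)) *
        (((1 + y ^ 4) * (4 * y ^ 2 + x ^ 2 * (1 + 9 * y ^ 4))) *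
            (4 * y ^ 3 * y1 * x2 ^ 2 + 2 * (2 * x1 * y ^ 3 + 6 * x * y ^ 2 * y1) * x2 * y2
              + (8 * x * x1 * y ^ 2 + 8 * x ^ 2 * y * y1) * y2 ^ 2)
          + lam * (1 - 3 * y ^ 4) * (2 * x * x1 + 2 * y * y1
              + 2 * (x * y ^ 2) * (x1 * y ^ 2 + 2 * x * y * y1))) = 0 := by
  have hE : (1 + y ^ 4) ≠ 0 := by positivity
  have e1 : x1 = (W * y2 - 2 * x * y ^ 3 * y1) / (1 + y ^ 4) := by
    field_simp; linarith
  have e2 : x2 = (- (W * y1) - 2 * x * y ^ 3 * y2) / (1 + y ^ 4) := by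
    field_simp; linarith
  have e3 : lam = W ^ 2 * (y1 ^ 2 + y2 ^ 2) / (1 + y ^ 4) := by
    field_simp; linarith
  subst e1 e2 e3
  field_simp
  linear_combination (2*(1+y^4)*(y1^2+y2^2)*(x*W*y1*(1-3*y^4)^2-4*y*y2*((1+y^4)^2+4*x^2*y^2*(1+5*y^4)+x^4*(27*y^8+10*y^4-1)))) * hR + (-54*y1^4*y2*W*x^2*y^12 - 10*y1^4*y2*W*x^2*y^8 + 46*y1^4*y2*W*x^2*y^4 + 2*y1^4*y2*W*x^2 + 8*y1^4*y2*W*y^10 + 16*y1^4*y2*W*y^6 + 8*y1^4*y2*W*y^2 + 24*y1^3*y2^2*W^2*x*y^9 + 16*y1^3*y2^2*W^2*x*y^5 - 8*y1^3*y2^2*W^2*x*y + 96*y1^3*y2^2*x^3*y^11 + 64*y1^3*y2^2*x^3*y^7 - 32*y1^3*y2^2*x^3*y^3 + 24*y1^3*y2^2*x*y^13 + 40*y1^3*y2^2*x*y^9 + 8*y1^3*y2^2*x*y^5 - 8*y1^3*y2^2*x*y - 54*y1^2*y2^3*W*x^2*y^12 - 42*y1^2*y2^3*W*x^2*y^8 + 14*y1^2*y2^3*W*x^2*y^4 + 2*y1^2*y2^3*W*x^2 + 24*y1*y2^4*W^2*x*y^9 + 16*y1*y2^4*W^2*x*y^5 - 8*y1*y2^4*W^2*x*y + 96*y1*y2^4*x^3*y^11 + 64*y1*y2^4*x^3*y^7 - 32*y1*y2^4*x^3*y^3 + 24*y1*y2^4*x*y^13 +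 40*y1*y2^4*x*y^9 + 8*y1*y2^4*x*y^5 - 8*y1*y2^4*x*y - 32*y2^5*W*x^2*y^8 - 32*y2^5*W*x^2*y^4 - 8*y2^5*W*y^10 - 16*y2^5*W*y^6 - 8*y2^5*W*y^2) * hW

/-- The pointwise Codazzi computation for the graph of `x * y ^ 2`. -/
lemma key_alg {x y x1 x2 y1 y2 x12 y12 x22 y22 lam : ℝ} (hy : 0 < y)
    (hl : 0 < lam)
    (I1 : (1 + y ^ 4) * x1 ^ 2 + 2 * (2 * x * y ^ 3) * x1 * y1
      + (1 + 4 * x ^ 2 * y ^ 2) * y1 ^ 2 = lam)
    (I2 : (1 + y ^ 4) * x2 ^ 2 + 2 * (2 * x * y ^ 3) * x2 * y2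
      + (1 + 4 * x ^ 2 * y ^ 2) * y2 ^ 2 = lam)
    (I12 : (1 + y ^ 4) * x1 * x2 + (2 * x * y ^ 3) * (x1 * y2 + x2 * y1)
      + (1 + 4 * x ^ 2 * y ^ 2) * y1 * y2 = 0)
    (III : y * (x1 * y2 + x2 * y1) + x * y1 * y2 = 0)
    (I12v : 4 * y ^ 3 * y2 * x1 * x2
          + (2 * x2 * y ^ 3 + 6 * x * y ^ 2 * y2) * (x1 * y2 + x2 * y1)
          + (8 * x * x2 * y ^ 2 + 8 * x ^ 2 * y * y2) * y1 * y2
          + (1 + y ^ 4) * (x12 * x2 + x1 * x22)
          + (2 * x * y ^ 3) * (x12 * y2 + x1 * y22 + x22 * y1 + x2 * y12)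
          + (1 + 4 * x ^ 2 * y ^ 2) * (y12 * y2 + y1 * y22) = 0)
    (IIIv : y2 * (x1 * y2 + x2 * y1) + x2 * y1 * y2
          + y * (x12 * y2 + x1 * y22 + x22 * y1 + x2 * y12)
          + x * (y12 * y2 + y1 * y22) = 0) :
    (4 * y ^ 3 * y1 * x2 ^ 2 + 2 * (2 * x1 * y ^ 3 + 6 * x * y ^ 2 * y1) * x2 * y2
        + (8 * x * x1 * y ^ 2 + 8 * x ^ 2 * y * y1) * y2 ^ 2
        + 2 * ((1 + y ^ 4) * x2 * x12 + (2 * x * y ^ 3) * (x12 * y2 + x2 * y12)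
          + (1 + 4 * x ^ 2 * y ^ 2) * y2 * y12))
      * ((1 + y ^ 4) * (4 * y ^ 2 + x ^ 2 * (1 + 9 * y ^ 4)))
    = - (lam * (1 - 3 * y ^ 4) * (2 * x * x1 + 2 * y * y1
              + 2 * (x * y ^ 2) * (x1 * y ^ 2 + 2 * x * y * y1))) := by
  -- the Jacobian is nonzero
  have hJ2 : (1 + y ^ 4 + 4 * x ^ 2 * y ^ 2) * (x1 * y2 - x2 * y1) ^ 2 = lam ^ 2 := by
    linear_combination
      ((1 + y ^ 4) * x2 ^ 2 + 2 * (2 * x * y ^ 3) * x2 * y2
        + (1 + 4 * x ^ 2 * y ^ 2) * y2 ^ 2) * I1 + lam * I2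
      - ((1 + y ^ 4) * x1 * x2 + (2 * x * y ^ 3) * (x1 * y2 + x2 * y1)
        + (1 + 4 * x ^ 2 * y ^ 2) * y1 * y2) * I12
  have hJ : x1 * y2 - x2 * y1 ≠ 0 := by
    intro h
    rw [h] at hJ2
    have : 0 < lam ^ 2 := by positivity
    nlinarith
  set W : ℝ := lam / (x1 * y2 - x2 * y1) with hWdef
  have hWJ : W * (x1 * y2 - x2 * y1) = lam := by
    rw [hWdef]; field_simp
  have hW : W ^ 2 = 1 + y ^ 4 + 4 * x ^ 2 * y ^ 2 := by
    have h3 : (W ^ 2 - (1 + y ^ 4 + 4 * x ^ 2 * y ^ 2)) * (x1 * y2 - x2 * y1) ^ 2 = 0 := by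
      linear_combination (W * (x1 * y2 - x2 * y1) + lam) * hWJ - hJ2
    have := (mul_eq_zero.mp h3).resolve_right (pow_ne_zero 2 hJ)
    linarith
  have hW0 : W ≠ 0 := by
    intro h; rw [h] at hWJ; linarith
  have hx1 : (1 + y ^ 4) * x1 = W * y2 - 2 * x * y ^ 3 * y1 := by
    have : ((1 + y ^ 4) * x1 + 2 * x * y ^ 3 * y1 - W * y2) * (x1 * y2 - x2 * y1) = 0 := by
      linear_combination y2 * I1 - y1 * I12 - y2 * hWJ
    have := (mul_eq_zero.mp this).resolve_right hJ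
    linarith
  have hx2 : (1 + y ^ 4) * x2 = - (W * y1) - 2 * x * y ^ 3 * y2 := by
    have : ((1 + y ^ 4) * x2 + 2 * x * y ^ 3 * y2 + W * y1) * (x1 * y2 - x2 * y1) = 0 := by
      linear_combination -y1 * I2 + y2 * I12 + y1 * hWJ
    have := (mul_eq_zero.mp this).resolve_right hJ
    linarith
  have hlam : (1 + y ^ 4) * lam = W ^ 2 * (y1 ^ 2 + y2 ^ 2) := by
    rw [← hWJ]
    linear_combination W * y2 * hx1 - W * y1 * hx2
  have hR : y * W * (y2 ^ 2 - y1 ^ 2) + x * (1 - 3 * y ^ 4) * y1 * y2 = 0 := by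
    linear_combination (1 + y ^ 4) * III - y * y2 * hx1 - y * y1 * hx2
  have hid := poly_id hW hR hx1 hx2 hlam
  -- proportionality of the covectors
  have p1 := lin_zero (a := lam * (y * y1) - (2 * y * x1 * y1 + x * y1 ^ 2)
        * ((1 + y ^ 4) * x1 + 2 * x * y ^ 3 * y1))
      (b := lam * (y * x1 + x * y1) - (2 * y * x1 * y1 + x * y1 ^ 2)
        * ((2 * x * y ^ 3) * x1 + (1 + 4 * x ^ 2 * y ^ 2) * y1))
      (x1 := x1) (y1 := y1) (x2 := x2) (y2 := y2)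
      (by linear_combination -(2 * y * x1 * y1 + x * y1 ^ 2) * I1)
      (by linear_combination lam * III - (2 * y * x1 * y1 + x * y1 ^ 2) * I12) hJ
  have p2 := lin_zero (a := lam * (y * y2) - (2 * y * x2 * y2 + x * y2 ^ 2)
        * ((1 + y ^ 4) * x2 + 2 * x * y ^ 3 * y2))
      (b := lam * (y * x2 + x * y2) - (2 * y * x2 * y2 + x * y2 ^ 2)
        * ((2 * x * y ^ 3) * x2 + (1 + 4 * x ^ 2 * y ^ 2) * y2))
      (x1 := x1) (y1 := y1) (x2 := x2) (y2 := y2)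
      (by linear_combination lam * III - (2 * y * x2 * y2 + x * y2 ^ 2) * I12)
      (by linear_combination -(2 * y * x2 * y2 + x * y2 ^ 2) * I2) hJ
  -- distinct principal curvatures
  have hprod : (2 * y * x1 * y1 + x * y1 ^ 2) * (2 * y * x2 * y2 + x * y2 ^ 2)
      = - (y * (x1 * y2 - x2 * y1)) ^ 2 := by
    linear_combination (y * (x1 * y2 + x2 * y1) + x * y1 * y2) * III
  have hne : (2 * y * x2 * y2 + x * y2 ^ 2) - (2 * y * x1 * y1 + x * y1 ^ 2) ≠ 0 := by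
    intro h
    have h1 : (2 * y * x2 * y2 + x * y2 ^ 2) = (2 * y * x1 * y1 + x * y1 ^ 2) := by linarith
    rw [h1] at hprod
    have h2 : 0 < (y * (x1 * y2 - x2 * y1)) ^ 2 := by positivity
    linarith [mul_self_nonneg (2 * y * x1 * y1 + x * y1 ^ 2)]
  -- the Codazzi relation
  have hcod : ((2 * y * x2 * y2 + x * y2 ^ 2) - (2 * y * x1 * y1 + x * y1 ^ 2)) *
      ((1 + y ^ 4) * x2 * x12 + (2 * x * y ^ 3) * (x12 * y2 + x2 * y12)
          + (1 + 4 * x ^ 2 * y ^ 2) * y2 * y12)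
      = (2 * y * x1 * y1 + x * y1 ^ 2) * (4 * y ^ 3 * y2 * x1 * x2
          + (2 * x2 * y ^ 3 + 6 * x * y ^ 2 * y2) * (x1 * y2 + x2 * y1)
          + (8 * x * x2 * y ^ 2 + 8 * x ^ 2 * y * y2) * y1 * y2)
        - lam * (y2 * (x1 * y2 + x2 * y1) + x2 * y1 * y2) := by
    linear_combination lam * IIIv - (2 * y * x1 * y1 + x * y1 ^ 2) * I12v
      - x22 * p1.1 - y22 * p1.2 - x12 * p2.1 - y12 * p2.2
  apply mul_left_cancel₀ hne
  linear_combination 2 * ((1 + y ^ 4) * (4 * y ^ 2 + x ^ 2 * (1 + 9 * y ^ 4))) * hcod + hid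

/-- `f` has the partial derivatives `a`, `b` at `w` (and is differentiable there). -/
def HasPD (f : ℝ × ℝ → ℝ) (a b : ℝ) (w : ℝ × ℝ) : Prop :=
  HasFDerivAt f (a • ContinuousLinearMap.fst ℝ ℝ ℝ + b • ContinuousLinearMap.snd ℝ ℝ ℝ) w

namespace HasPD
variable {f g : ℝ × ℝ → ℝ} {a b a' b' : ℝ} {w : ℝ × ℝ}

lemma congr_coeff (h : HasPD f a b w) (ha : a = a') (hb : b = b') : HasPD f a' b' w := by
  subst ha hb; exact h

lemma unique (h : HasPD f a b w) (h' : HasPD f a' b' w) : a = a' ∧ b = b' := by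
  have := HasFDerivAt.unique h h'
  constructor
  · simpa using congrArg (fun L : ℝ × ℝ →L[ℝ] ℝ => L (1, 0)) this
  · simpa using congrArg (fun L : ℝ × ℝ →L[ℝ] ℝ => L (0, 1)) this

lemma of_differentiableAt (h : DifferentiableAt ℝ f w) :
    HasPD f (fderiv ℝ f w (1, 0)) (fderiv ℝ f w (0, 1)) w := by
  unfold HasPD
  convert h.hasFDerivAt using 1
  ext <;> simp

lemma const (c : ℝ) (w : ℝ × ℝ) : HasPD (fun _ => c) 0 0 w := by
  unfold HasPD
  simpa using hasFDerivAt_const c w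

lemma add (hf : HasPD f a b w) (hg : HasPD g a' b' w) :
    HasPD (fun z => f z + g z) (a + a') (b + b') w := by
  exact (HasFDerivAt.fun_add hf hg).congr_fderiv (by ext <;> simp)

lemma mul (hf : HasPD f a b w) (hg : HasPD g a' b' w) :
    HasPD (fun z => f z * g z) (a * g w + f w * a') (b * g w + f w * b') w := by
  exact (HasFDerivAt.fun_mul hf hg).congr_fderiv (by ext <;> simp <;> ring)

lemma comp_real {φ : ℝ → ℝ} {φ' : ℝ} (hφ : HasDerivAt φ φ' (f w)) (hf : HasPD f a b w) :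
    HasPD (fun z => φ (f z)) (φ' * a) (φ' * b) w := by
  exact (hφ.comp_hasFDerivAt w hf).congr_fderiv (by ext <;> simp)

lemma congr_fun_near (hf : HasPD f a b w) (h : ∀ᶠ z in nhds w, g z = f z) : HasPD g a b w :=
  HasFDerivAt.congr_of_eventuallyEq hf h

/-- symmetry of mixed partial derivatives -/
lemma symm {p q : ℝ × ℝ → ℝ} {p1 p2 q1 q2 : ℝ}
    (h : ∀ᶠ z in nhds w, HasPD f (p z) (q z) z) (hp : HasPD p p1 p2 w) (hq : HasPD q q1 q2 w) :
    p2 = q1 := by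
  have hp' := HasFDerivAt.smul_const (𝕜 := ℝ) hp (ContinuousLinearMap.fst ℝ ℝ ℝ)
  have hq' := HasFDerivAt.smul_const (𝕜 := ℝ) hq (ContinuousLinearMap.snd ℝ ℝ ℝ)
  have h2 := HasFDerivAt.fun_add hp' hq'
  have := second_derivative_symmetric_of_eventually (𝕜 := ℝ) h h2 ((0, 1) : ℝ × ℝ) ((1, 0) : ℝ × ℝ)
  simpa using this

end HasPD

/-- second order data of a `C²` function -/
lemma exists_second {f : ℝ × ℝ → ℝ} {W : Set (ℝ × ℝ)} (hW : IsOpen W)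
    (hf : ContDiffOn ℝ 2 f W) {w : ℝ × ℝ} (hw : w ∈ W) :
    HasPD f (fderiv ℝ f w (1, 0)) (fderiv ℝ f w (0, 1)) w ∧
    ∃ f11 f12 f22 : ℝ, HasPD (fun z => fderiv ℝ f z (1, 0)) f11 f12 w ∧
      HasPD (fun z => fderiv ℝ f z (0, 1)) f12 f22 w := by
  have hd : ∀ z ∈ W, HasPD f (fderiv ℝ f z (1, 0)) (fderiv ℝ f z (0, 1)) z := fun z hz =>
    HasPD.of_differentiableAt
      (((hf z hz).contDiffAt (hW.mem_nhds hz)).differentiableAt (by norm_num))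
  refine ⟨hd w hw, ?_⟩
  have h1 : DifferentiableAt ℝ (fderiv ℝ f) w := by
    apply ContDiffAt.differentiableAt (n := 1) _ (by norm_num)
    exact ((hf w hw).contDiffAt (hW.mem_nhds hw)).fderiv_right (by norm_num)
  have hp : DifferentiableAt ℝ (fun z => fderiv ℝ f z (1, 0)) w :=
    h1.clm_apply (differentiableAt_const _)
  have hq : DifferentiableAt ℝ (fun z => fderiv ℝ f z (0, 1)) w :=
    h1.clm_apply (differentiableAt_const _)
  have hp' := HasPD.of_differentiableAt hp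
  have hq' := HasPD.of_differentiableAt hq
  have hs := HasPD.symm (f := f) (Filter.eventually_of_mem (hW.mem_nhds hw) hd) hp' hq'
  exact ⟨_, _, _, hp', hq'.congr_coeff hs.symm rfl⟩

namespace HasPD
variable {f g : ℝ × ℝ → ℝ} {a b a' b' : ℝ} {w : ℝ × ℝ}

lemma const_mul (c : ℝ) (hf : HasPD f a b w) : HasPD (fun z => c * f z) (c * a) (c * b) w :=
  ((HasPD.const c w).mul hf).congr_coeff (by ring) (by ring)

lemma pow (hf : HasPD f a b w) (n : ℕ) :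
    HasPD (fun z => f z ^ n) (n * f w ^ (n - 1) * a) (n * f w ^ (n - 1) * b) w :=
  HasPD.comp_real (φ := fun t => t ^ n) (hasDerivAt_pow n (f w)) hf

lemma neg (hf : HasPD f a b w) : HasPD (fun z => - f z) (-a) (-b) w :=
  HasFDerivAt.congr_fderiv (HasFDerivAt.fun_neg hf) (by ext <;> simp)

/-- a bilinear expression -/
lemma bilin {E F G p q r s : ℝ × ℝ → ℝ} {E1 E2 F1 F2 G1 G2 p1 p2 q1 q2 r1 r2 s1 s2 : ℝ}
    (hE : HasPD E E1 E2 w) (hF : HasPD F F1 F2 w) (hG : HasPD G G1 G2 w)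
    (hp : HasPD p p1 p2 w) (hq : HasPD q q1 q2 w) (hr : HasPD r r1 r2 w) (hs : HasPD s s1 s2 w) :
    HasPD (fun z => E z * (p z * q z) + F z * (p z * s z + q z * r z) + G z * (r z * s z))
      (E1 * (p w * q w) + F1 * (p w * s w + q w * r w) + G1 * (r w * s w)
        + E w * (p1 * q w + p w * q1) + F w * (p1 * s w + p w * s1 + q1 * r w + q w * r1)
        + G w * (r1 * s w + r w * s1))
      (E2 * (p w * q w) + F2 * (p w * s w + q w * r w) + G2 * (r w * s w)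
        + E w * (p2 * q w + p w * q2) + F w * (p2 * s w + p w * s2 + q2 * r w + q w * r2)
        + G w * (r2 * s w + r w * s2)) w :=
  (((hE.mul (hp.mul hq)).add (hF.mul ((hp.mul hs).add (hq.mul hr)))).add
    (hG.mul (hr.mul hs))).congr_coeff (by ring) (by ring)

end HasPD

section core
variable {W : Set (ℝ × ℝ)} {x y : ℝ × ℝ → ℝ}

/-- Core of the argument: no curvature-line parameters on `z = x y ^ 2` are isothermal. -/
theorem no_isothermal_core (hW : IsOpen W) {w0 : ℝ × ℝ} (hw0 : w0 ∈ W)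
    (hx : ContDiffOn ℝ 2 x W) (hy : ContDiffOn ℝ 2 y W)
    (hxpos : ∀ w ∈ W, 0 < x w) (hypos : ∀ w ∈ W, 0 < y w)
    {lam : ℝ × ℝ → ℝ} (hlpos : ∀ w ∈ W, 0 < lam w)
    {x1 x2 y1 y2 : ℝ × ℝ → ℝ}
    (hx1 : x1 = fun z => fderiv ℝ x z (1, 0)) (hx2 : x2 = fun z => fderiv ℝ x z (0, 1))
    (hy1 : y1 = fun z => fderiv ℝ y z (1, 0)) (hy2 : y2 = fun z => fderiv ℝ y z (0, 1))
    (I1 : ∀ w ∈ W, (1 + y w ^ 4) * x1 w ^ 2 + 2 * (2 * x w * y w ^ 3) * x1 w * y1 w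
      + (1 + 4 * x w ^ 2 * y w ^ 2) * y1 w ^ 2 = lam w)
    (I2 : ∀ w ∈ W, (1 + y w ^ 4) * x2 w ^ 2 + 2 * (2 * x w * y w ^ 3) * x2 w * y2 w
      + (1 + 4 * x w ^ 2 * y w ^ 2) * y2 w ^ 2 = lam w)
    (I12 : ∀ w ∈ W, (1 + y w ^ 4) * x1 w * x2 w
      + (2 * x w * y w ^ 3) * (x1 w * y2 w + x2 w * y1 w)
      + (1 + 4 * x w ^ 2 * y w ^ 2) * y1 w * y2 w = 0)
    (III : ∀ w ∈ W, y w * (x1 w * y2 w + x2 w * y1 w) + x w * y1 w * y2 w = 0) : False := by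
  classical
  -- Step 1: the gradient of `log lam`
  have stepA : ∀ w ∈ W, HasPD (fun z => Real.log (lam z))
      (-((1 - 3 * y w ^ 4) / ((1 + y w ^ 4) * (4 * y w ^ 2 + x w ^ 2 * (1 + 9 * y w ^ 4)))
        * (2 * x w * x1 w + 2 * y w * y1 w
            + 2 * (x w * y w ^ 2) * (x1 w * y w ^ 2 + 2 * x w * y w * y1 w))))
      (-((1 - 3 * y w ^ 4) / ((1 + y w ^ 4) * (4 * y w ^ 2 + x w ^ 2 * (1 + 9 * y w ^ 4)))
        * (2 * x w * x2 w + 2 * y w * y2 w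
            + 2 * (x w * y w ^ 2) * (x2 w * y w ^ 2 + 2 * x w * y w * y2 w)))) w := by
    intro w hw
    obtain ⟨dx, x11, x12, x22, dx1, dx2⟩ := exists_second hW hx hw
    obtain ⟨dy, y11, y12, y22, dy1, dy2⟩ := exists_second hW hy hw
    rw [← hx1] at dx1; rw [← hx2] at dx2; rw [← hy1] at dy1; rw [← hy2] at dy2
    replace dx : HasPD x (x1 w) (x2 w) w := by rw [hx1, hx2]; exact dx
    replace dy : HasPD y (y1 w) (y2 w) w := by rw [hy1, hy2]; exact dy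
    have dE : HasPD (fun z => 1 + y z ^ 4) (4 * y w ^ 3 * y1 w) (4 * y w ^ 3 * y2 w) w :=
      ((HasPD.const 1 w).add (dy.pow 4)).congr_coeff (by norm_num) (by norm_num)
    have dF : HasPD (fun z => 2 * x z * y z ^ 3)
        (2 * x1 w * y w ^ 3 + 6 * x w * y w ^ 2 * y1 w)
        (2 * x2 w * y w ^ 3 + 6 * x w * y w ^ 2 * y2 w) w :=
      ((dx.const_mul 2).mul (dy.pow 3)).congr_coeff (by norm_num; ring) (by norm_num; ring)
    have dG : HasPD (fun z => 1 + 4 * x z ^ 2 * y z ^ 2)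
        (8 * x w * x1 w * y w ^ 2 + 8 * x w ^ 2 * y w * y1 w)
        (8 * x w * x2 w * y w ^ 2 + 8 * x w ^ 2 * y w * y2 w) w :=
      ((HasPD.const 1 w).add (((dx.pow 2).const_mul 4).mul (dy.pow 2))).congr_coeff
        (by norm_num; ring) (by norm_num; ring)
    have nhd := hW.mem_nhds hw
    -- derivative of I12
    have d12 := HasPD.bilin dE dF dG dx1 dx2 dy1 dy2
    have z12 := d12.unique ((HasPD.const 0 w).congr_fun_near
      (Filter.eventually_of_mem nhd (fun z hz => by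
        have := I12 z hz
        linear_combination this)))
    -- derivative of III
    have d3 := HasPD.bilin (HasPD.const 0 w) dy dx dx1 dx2 dy1 dy2
    have z3 := d3.unique ((HasPD.const 0 w).congr_fun_near
      (Filter.eventually_of_mem nhd (fun z hz => by
        have := III z hz
        linear_combination this)))
    -- derivatives of lam
    have dl1 := (HasPD.bilin dE dF dG dx1 dx1 dy1 dy1).congr_fun_near (g := lam)
      (Filter.eventually_of_mem nhd (fun z hz => by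
        have := I1 z hz
        linear_combination -this))
    have dl2 := (HasPD.bilin dE dF dG dx2 dx2 dy2 dy2).congr_fun_near (g := lam)
      (Filter.eventually_of_mem nhd (fun z hz => by
        have := I2 z hz
        linear_combination -this))
    have ku := key_alg (hypos w hw) (hlpos w hw) (I1 w hw) (I2 w hw) (I12 w hw) (III w hw)
      (x12 := x12) (y12 := y12) (x22 := x22) (y22 := y22)
      (by linear_combination z12.2) (by linear_combination z3.2)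
    have kv := key_alg (x1 := x2 w) (x2 := x1 w) (y1 := y2 w) (y2 := y1 w)
      (hypos w hw) (hlpos w hw) (I2 w hw) (I1 w hw)
      (by linear_combination I12 w hw) (by linear_combination III w hw)
      (x12 := x12) (y12 := y12) (x22 := x11) (y22 := y11)
      (by linear_combination z12.1) (by linear_combination z3.1)
    have hl := hlpos w hw
    have hK : 0 < (1 + y w ^ 4) * (4 * y w ^ 2 + x w ^ 2 * (1 + 9 * y w ^ 4)) := by
      have := hypos w hw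
      positivity
    have dl : HasPD lam
        (-(lam w * (1 - 3 * y w ^ 4) * (2 * x w * x1 w + 2 * y w * y1 w
            + 2 * (x w * y w ^ 2) * (x1 w * y w ^ 2 + 2 * x w * y w * y1 w)))
          / ((1 + y w ^ 4) * (4 * y w ^ 2 + x w ^ 2 * (1 + 9 * y w ^ 4))))
        (-(lam w * (1 - 3 * y w ^ 4) * (2 * x w * x2 w + 2 * y w * y2 w
            + 2 * (x w * y w ^ 2) * (x2 w * y w ^ 2 + 2 * x w * y w * y2 w)))
          / ((1 + y w ^ 4) * (4 * y w ^ 2 + x w ^ 2 * (1 + 9 * y w ^ 4)))) w := by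
      have hu := dl1.unique dl2
      refine dl1.congr_coeff ?_ ?_
      · rw [eq_div_iff hK.ne', hu.1, ← ku]
        ring
      · rw [eq_div_iff hK.ne', ← kv]
        ring
    refine (HasPD.comp_real (Real.hasDerivAt_log hl.ne') dl).congr_coeff ?_ ?_
    · field_simp
    · field_simp
  -- Step 2: compare the mixed derivatives at `w0`
  obtain ⟨dx, x11, x12, x22, dx1, dx2⟩ := exists_second hW hx hw0
  obtain ⟨dy, y11, y12, y22, dy1, dy2⟩ := exists_second hW hy hw0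
  rw [← hx1] at dx1; rw [← hx2] at dx2; rw [← hy1] at dy1; rw [← hy2] at dy2
  replace dx : HasPD x (x1 w0) (x2 w0) w0 := by rw [hx1, hx2]; exact dx
  replace dy : HasPD y (y1 w0) (y2 w0) w0 := by rw [hy1, hy2]; exact dy
  have hX := hxpos w0 hw0
  have hY := hypos w0 hw0
  have hl := hlpos w0 hw0
  have hK : 0 < (1 + y w0 ^ 4) * (4 * y w0 ^ 2 + x w0 ^ 2 * (1 + 9 * y w0 ^ 4)) := by positivity
  have dnum : HasPD (fun z => 1 - 3 * y z ^ 4) (-(12 * y w0 ^ 3 * y1 w0))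
      (-(12 * y w0 ^ 3 * y2 w0)) w0 := by
    have := (HasPD.const 1 w0).add ((dy.pow 4).const_mul (-3))
    refine (this.congr_fun_near (g := fun z => 1 - 3 * y z ^ 4)
      (Filter.Eventually.of_forall (fun z => by ring))).congr_coeff ?_ ?_
    · norm_num; ring
    · norm_num; ring
  have dK : HasPD (fun z => (1 + y z ^ 4) * (4 * y z ^ 2 + x z ^ 2 * (1 + 9 * y z ^ 4)))
      (2 * x w0 * (1 + y w0 ^ 4) * (1 + 9 * y w0 ^ 4) * x1 w0
        + (4 * y w0 ^ 3 * (4 * y w0 ^ 2 + x w0 ^ 2 * (1 + 9 * y w0 ^ 4))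
          + (1 + y w0 ^ 4) * (8 * y w0 + 36 * x w0 ^ 2 * y w0 ^ 3)) * y1 w0)
      (2 * x w0 * (1 + y w0 ^ 4) * (1 + 9 * y w0 ^ 4) * x2 w0
        + (4 * y w0 ^ 3 * (4 * y w0 ^ 2 + x w0 ^ 2 * (1 + 9 * y w0 ^ 4))
          + (1 + y w0 ^ 4) * (8 * y w0 + 36 * x w0 ^ 2 * y w0 ^ 3)) * y2 w0) w0 := by
    refine (((HasPD.const 1 w0).add (dy.pow 4)).mul (((dy.pow 2).const_mul 4).add
      ((dx.pow 2).mul ((HasPD.const 1 w0).add ((dy.pow 4).const_mul 9))))).congr_coeff ?_ ?_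
    · norm_num; ring
    · norm_num; ring
  have df := dnum.mul (HasPD.comp_real (hasDerivAt_inv hK.ne') dK)
  have dg1 : HasPD (fun z => 2 * x z * x1 z + 2 * y z * y1 z
            + 2 * (x z * y z ^ 2) * (x1 z * y z ^ 2 + 2 * x z * y z * y1 z)) _ _ w0 :=
    (((dx.const_mul 2).mul dx1).add ((dy.const_mul 2).mul dy1)).add
      (((dx.mul (dy.pow 2)).const_mul 2).mul ((dx1.mul (dy.pow 2)).add
        (((dx.const_mul 2).mul dy).mul dy1)))
  have dg2 : HasPD (fun z => 2 * x z * x2 z + 2 * y z * y2 z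
            + 2 * (x z * y z ^ 2) * (x2 z * y z ^ 2 + 2 * x z * y z * y2 z)) _ _ w0 :=
    (((dx.const_mul 2).mul dx2).add ((dy.const_mul 2).mul dy2)).add
      (((dx.mul (dy.pow 2)).const_mul 2).mul ((dx2.mul (dy.pow 2)).add
        (((dx.const_mul 2).mul dy).mul dy2)))
  have hs := HasPD.symm (Filter.eventually_of_mem (hW.mem_nhds hw0) stepA)
    (df.mul dg1).neg (df.mul dg2).neg
  -- the Jacobian is nonzero
  have hJ2 : (1 + y w0 ^ 4 + 4 * x w0 ^ 2 * y w0 ^ 2) * (x1 w0 * y2 w0 - x2 w0 * y1 w0) ^ 2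
      = lam w0 ^ 2 := by
    have I1 := I1 w0 hw0
    have I2 := I2 w0 hw0
    have I12 := I12 w0 hw0
    linear_combination
      ((1 + y w0 ^ 4) * x2 w0 ^ 2 + 2 * (2 * x w0 * y w0 ^ 3) * x2 w0 * y2 w0
        + (1 + 4 * x w0 ^ 2 * y w0 ^ 2) * y2 w0 ^ 2) * I1 + lam w0 * I2
      - ((1 + y w0 ^ 4) * x1 w0 * x2 w0 + (2 * x w0 * y w0 ^ 3) * (x1 w0 * y2 w0 + x2 w0 * y1 w0)
        + (1 + 4 * x w0 ^ 2 * y w0 ^ 2) * y1 w0 * y2 w0) * I12
  have hJ : x1 w0 * y2 w0 - x2 w0 * y1 w0 ≠ 0 := by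
    intro h
    rw [h] at hJ2
    have : 0 < lam w0 ^ 2 := by positivity
    nlinarith
  have key : (2 * x w0 * (1 + y w0 ^ 4) * ((1 + y w0 ^ 4) *
      (6 * y w0 + 30 * y w0 ^ 5 + 48 * x w0 ^ 2 * y w0 ^ 3)))
      * (x1 w0 * y2 w0 - x2 w0 * y1 w0) = 0 := by
    have h0 : (4 * y w0 ^ 2 + x w0 ^ 2 * (1 + 9 * y w0 ^ 4)) ≠ 0 := by positivity
    have h0' : (1 + y w0 ^ 4) ≠ 0 := by positivity
    norm_num at hs
    linear_combination (norm := (field_simp; ring))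
      (((1 + y w0 ^ 4) * (4 * y w0 ^ 2 + x w0 ^ 2 * (1 + 9 * y w0 ^ 4))) ^ 2) * hs
  rcases mul_eq_zero.mp key with h | h
  · have : 0 < 2 * x w0 * (1 + y w0 ^ 4) * ((1 + y w0 ^ 4) *
      (6 * y w0 + 30 * y w0 ^ 5 + 48 * x w0 ^ 2 * y w0 ^ 3)) := by positivity
    exact this.ne' h
  · exact hJ h


end core

end Pool.Agent.Lib.MP_9703cd_gt
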