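import Mathlib
set_option autoImplicit false
open Real Set Filter Topology
open scoped InnerProductSpace ContDiff

namespace Pool.Agent.Lib.MP_9703cd_gt

/-- The restriction of `T` to the unit square is a continuous t-norm. -/
structure IsContinuousTNorm (T : ℝ × ℝ → ℝ) : Prop where
  maps : ∀ x ∈ Icc (0 : ℝ) 1, ∀ y ∈ Icc (0 : ℝ) 1, T (x, y) ∈ Icc (0 : ℝ) 1
  assoc : ∀ x ∈ Icc (0 : ℝ) 1, ∀ y ∈ Icc (0 : ℝ) 1, ∀ z ∈ Icc (0 : ℝ) 1,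
    T (T (x, y), z) = T (x, T (y, z))
  comm : ∀ x ∈ Icc (0 : ℝ) 1, ∀ y ∈ Icc (0 : ℝ) 1, T (x, y) = T (y, x)
  mono : ∀ x ∈ Icc (0 : ℝ) 1, ∀ x' ∈ Icc (0 : ℝ) 1, ∀ y ∈ Icc (0 : ℝ) 1, ∀ y' ∈ Icc (0 : ℝ) 1,
    x ≤ x' → y ≤ y' → T (x, y) ≤ T (x', y')
  one : ∀ x ∈ Icc (0 : ℝ) 1, T (x, 1) = x
  cont : ContinuousOn T (Icc (0 : ℝ) 1 ×ˢ Icc (0 : ℝ) 1)

/-- The graph `z = f (x, y)` in Euclidean three-space, parametrized by `(x, y)`. -/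
noncomputable def graphMap (f : ℝ × ℝ → ℝ) (p : ℝ × ℝ) : EuclideanSpace ℝ (Fin 3) :=
  !₂[p.1, p.2, f p]

/-- The unit normal field of the graph of `f`. -/
noncomputable def unitNormal (f : ℝ × ℝ → ℝ) (p : ℝ × ℝ) : EuclideanSpace ℝ (Fin 3) :=
  (1 / √(1 + fderiv ℝ f p (1, 0) ^ 2 + fderiv ℝ f p (0, 1) ^ 2)) •
    !₂[-fderiv ℝ f p (1, 0), -fderiv ℝ f p (0, 1), 1]

/-- `ξ` is a principal direction at the point over `p` (Rodrigues: `dN ξ = - k dX ξ`). -/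
def IsPrincipalDirection (f : ℝ × ℝ → ℝ) (p ξ : ℝ × ℝ) : Prop :=
  ξ ≠ 0 ∧ ∃ k : ℝ, fderiv ℝ (unitNormal f) p ξ = (-k) • fderiv ℝ (graphMap f) p ξ

/-- The point over `p` is umbilic: `dN = - k dX`. -/
def IsUmbilic (f : ℝ × ℝ → ℝ) (p : ℝ × ℝ) : Prop :=
  ∃ k : ℝ, ∀ ξ : ℝ × ℝ, fderiv ℝ (unitNormal f) p ξ = (-k) • fderiv ℝ (graphMap f) p ξ

/-- The graph of `f` is isothermal near the point over `p`: there are an open set `W` in the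
`(u, v)`-plane and a `C ^ 2` change of parameters `φ` on `W`, with `p` in its image, such that the
reparametrized surface `X = graphMap f ∘ φ` has first fundamental form `lam (du ^ 2 + dv ^ 2)`
with `lam > 0` and the coordinate curves are lines of curvature. -/
def IsIsothermalNear (f : ℝ × ℝ → ℝ) (p : ℝ × ℝ) : Prop :=
  ∃ (W : Set (ℝ × ℝ)) (φ : ℝ × ℝ → ℝ × ℝ) (lam : ℝ × ℝ → ℝ),
    IsOpen W ∧ p ∈ φ '' W ∧ ContDiffOn ℝ 2 φ W ∧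
    ∀ w ∈ W, 0 < lam w ∧
      ⟪fderiv ℝ (graphMap f ∘ φ) w (1, 0), fderiv ℝ (graphMap f ∘ φ) w (1, 0)⟫_ℝ = lam w ∧
      ⟪fderiv ℝ (graphMap f ∘ φ) w (0, 1), fderiv ℝ (graphMap f ∘ φ) w (0, 1)⟫_ℝ = lam w ∧
      ⟪fderiv ℝ (graphMap f ∘ φ) w (1, 0), fderiv ℝ (graphMap f ∘ φ) w (0, 1)⟫_ℝ = 0 ∧
      IsPrincipalDirection f (φ w) (fderiv ℝ φ w (1, 0)) ∧
      IsPrincipalDirection f (φ w) (fderiv ℝ φ w (0, 1))

end Pool.Agent.Lib.MP_9703cd_gt
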