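import Mathlib
set_option autoImplicit false
open Real Set Filter Topology

namespace Pool.Agent.Lib.MP_9703cd_gt

/-- a smooth increasing function equal to `1/4` for `t ≤ 1/4` and to `t` for `t ≥ 1/2` -/
noncomputable def psi (t : ℝ) : ℝ := 1 / 4 + (t - 1 / 4) * Real.smoothTransition (4 * t - 1)

/-- multiplicative generator: `t/4` for `t ≤ 1/4` and `t ^ 2` for `t ≥ 1/2` -/
noncomputable def gen (t : ℝ) : ℝ := t * psi t

lemma gen_of_le {t : ℝ} (h : t ≤ 1 / 4) : gen t = t / 4 := by
  unfold gen psi
  rw [Real.smoothTransition.zero_of_nonpos (by linarith)]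
  ring

lemma gen_of_ge {t : ℝ} (h : 1 / 2 ≤ t) : gen t = t ^ 2 := by
  unfold gen psi
  rw [Real.smoothTransition.one_of_one_le (by linarith)]
  ring

lemma gen_contDiff {n : ℕ∞} : ContDiff ℝ n gen := by
  unfold gen psi
  have h : ContDiff ℝ n (fun t : ℝ => Real.smoothTransition (4 * t - 1)) :=
    Real.smoothTransition.contDiff.comp (by fun_prop)
  fun_prop

/-- the derivative of the generator -/
noncomputable def genDeriv (t : ℝ) : ℝ :=
  psi t + t * (Real.smoothTransition (4 * t - 1)
    + (t - 1 / 4) * (deriv Real.smoothTransition (4 * t - 1) * 4))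

lemma gen_hasDerivAt (t : ℝ) : HasDerivAt gen (genDeriv t) t := by
  have h1 : HasDerivAt Real.smoothTransition (deriv Real.smoothTransition (4 * t - 1)) (4 * t - 1) :=
    ((Real.smoothTransition.contDiff (n := 1)).differentiable (by norm_num) _).hasDerivAt
  have h2 : HasDerivAt (fun t : ℝ => 4 * t - 1) 4 t := by
    simpa using ((hasDerivAt_id t).const_mul 4).sub_const 1
  have h3 := h1.comp t h2
  have h4 : HasDerivAt (fun t : ℝ => t - 1 / 4) 1 t := (hasDerivAt_id t).sub_const _
  have h5 := (h4.mul h3).const_add (1 / 4)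
  have h6 := (hasDerivAt_id t).mul h5
  refine h6.congr_deriv ?_
  simp only [genDeriv, psi, id, Function.comp, Pi.mul_apply]
  ring

lemma genDeriv_pos (t : ℝ) : 0 < genDeriv t := by
  rcases lt_or_ge t (1 / 4) with h | h
  · have h1 : HasDerivAt (fun t : ℝ => t / 4) (1 / 4) t := (hasDerivAt_id t).div_const 4
    have h2 : HasDerivAt gen (1 / 4) t := by
      refine h1.congr_of_eventuallyEq ?_
      filter_upwards [Iio_mem_nhds h] with s hs
      exact gen_of_le (le_of_lt hs)
    rw [(gen_hasDerivAt t).unique h2]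
    norm_num
  · have hs : 0 ≤ Real.smoothTransition (4 * t - 1) := Real.smoothTransition.nonneg _
    have hd : 0 ≤ deriv Real.smoothTransition (4 * t - 1) := by
      exact Real.smoothTransition.monotone.deriv_nonneg
    have h1 : 0 ≤ t - 1 / 4 := by linarith
    have h0 : 0 ≤ t := by linarith
    unfold genDeriv psi
    positivity

lemma gen_strictMono : StrictMono gen :=
  strictMono_of_deriv_pos (fun t => by rw [(gen_hasDerivAt t).deriv]; exact genDeriv_pos t)

lemma gen_continuous : Continuous gen := (gen_contDiff (n := 0)).continuous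

lemma gen_surjective : Function.Surjective gen := by
  refine gen_continuous.surjective ?_ ?_
  · refine (tendsto_pow_atTop (α := ℝ) (n := 2) (by norm_num)).congr' ?_
    filter_upwards [Ici_mem_atTop (1 / 2 : ℝ)] with t ht
    exact (gen_of_ge ht).symm
  · have : Tendsto (fun t : ℝ => t / 4) atBot atBot :=
      tendsto_id.atBot_div_const (by norm_num)
    refine this.congr' ?_
    filter_upwards [Iic_mem_atBot (1 / 4 : ℝ)] with t ht
    exact (gen_of_le ht).symm

/-- the generator as a homeomorphism -/
noncomputable def genHomeo : ℝ ≃ₜ ℝ :=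
  (StrictMono.orderIsoOfSurjective gen gen_strictMono gen_surjective).toHomeomorph

lemma genHomeo_apply (t : ℝ) : genHomeo t = gen t := rfl

/-- the inverse of the generator -/
noncomputable def genInv (t : ℝ) : ℝ := genHomeo.symm t

lemma gen_genInv (t : ℝ) : gen (genInv t) = t := genHomeo.apply_symm_apply t
lemma genInv_gen (t : ℝ) : genInv (gen t) = t := genHomeo.symm_apply_apply t

lemma genInv_contDiff {n : ℕ∞} : ContDiff ℝ n genInv :=
  genHomeo.contDiff_symm_deriv (fun t => (genDeriv_pos t).ne') gen_hasDerivAt gen_contDiff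

lemma genInv_strictMono : StrictMono genInv := by
  intro a b hab
  by_contra h
  have := gen_strictMono.monotone (not_lt.mp h)
  rw [gen_genInv, gen_genInv] at this
  linarith

lemma genInv_eq {s t : ℝ} (h : gen t = s) : genInv s = t := by rw [← h, genInv_gen]

lemma gen_zero : gen 0 = 0 := by rw [gen_of_le (by norm_num)]; norm_num
lemma gen_one : gen 1 = 1 := by rw [gen_of_ge (by norm_num)]; norm_num

/-- the t-norm with multiplicative generator `gen` -/
noncomputable def T (p : ℝ × ℝ) : ℝ := genInv (gen p.1 * gen p.2)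

lemma gen_T (p : ℝ × ℝ) : gen (T p) = gen p.1 * gen p.2 := gen_genInv _

lemma T_contDiff {n : ℕ∞} : ContDiff ℝ n T := by
  unfold T
  have h1 : ContDiff ℝ n (fun p : ℝ × ℝ => gen p.1) := gen_contDiff.comp contDiff_fst
  have h2 : ContDiff ℝ n (fun p : ℝ × ℝ => gen p.2) := gen_contDiff.comp contDiff_snd
  exact genInv_contDiff.comp (h1.mul h2)

lemma T_eq {p : ℝ × ℝ} (h1 : 0 < p.1) (h1' : p.1 < 1 / 4) (h2 : 1 / 2 < p.2) (h2' : p.2 < 1) :
    T p = p.1 * p.2 ^ 2 := by
  unfold T
  apply genInv_eq
  have : p.1 * p.2 ^ 2 ≤ p.1 := by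
    have : p.2 ^ 2 ≤ 1 := by nlinarith
    nlinarith
  rw [gen_of_le (by linarith), gen_of_le (by linarith), gen_of_ge (by linarith)]
  ring

end Pool.Agent.Lib.MP_9703cd_gt
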