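import Pool.Agent.Lib.MP_9703cd_gt.Defs
import Pool.Agent.Lib.MP_9703cd_gt.Core
set_option autoImplicit false
open Real Set Filter Topology
open scoped InnerProductSpace ContDiff

namespace Pool.Agent.Lib.MP_9703cd_gt

lemma fderiv_coord {F : ℝ × ℝ → EuclideanSpace ℝ (Fin 3)} {p : ℝ × ℝ}
    (hF : DifferentiableAt ℝ F p) (i : Fin 3) (ξ : ℝ × ℝ) :
    (fderiv ℝ F p ξ) i = fderiv ℝ (fun q => F q i) p ξ := by
  have h := (EuclideanSpace.proj i : EuclideanSpace ℝ (Fin 3) →L[ℝ] ℝ).hasFDerivAt.comp p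
    hF.hasFDerivAt
  have h2 : HasFDerivAt (fun q => F q i)
    ((EuclideanSpace.proj i : EuclideanSpace ℝ (Fin 3) →L[ℝ] ℝ).comp (fderiv ℝ F p)) p := h
  rw [h2.fderiv]
  rfl

lemma inner_eq (a b : EuclideanSpace ℝ (Fin 3)) :
    ⟪a, b⟫_ℝ = a 0 * b 0 + a 1 * b 1 + a 2 * b 2 := by
  simp [PiLp.inner_apply, Fin.sum_univ_three]
  ring

lemma graphMap_differentiableAt {f : ℝ × ℝ → ℝ} {p : ℝ × ℝ} (hf : DifferentiableAt ℝ f p) :
    DifferentiableAt ℝ (graphMap f) p := by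
  rw [differentiableAt_euclidean]
  intro i
  fin_cases i
  · exact differentiableAt_fst
  · exact differentiableAt_snd
  · exact hf

lemma graphMap_fderiv {f : ℝ × ℝ → ℝ} {p : ℝ × ℝ} (hf : DifferentiableAt ℝ f p) (ξ : ℝ × ℝ) :
    fderiv ℝ (graphMap f) p ξ = !₂[ξ.1, ξ.2, fderiv ℝ f p ξ] := by
  ext i
  rw [fderiv_coord (graphMap_differentiableAt hf)]
  fin_cases i
  · change fderiv ℝ Prod.fst p ξ = ξ.1
    rw [fderiv_fst]; rfl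
  · change fderiv ℝ Prod.snd p ξ = ξ.2
    rw [fderiv_snd]; rfl
  · rfl

/-- the product model `x y ^ 2` -/
def model (p : ℝ × ℝ) : ℝ := p.1 * p.2 ^ 2

lemma model_hasFDerivAt (p : ℝ × ℝ) : HasFDerivAt model
    ((p.2 ^ 2) • ContinuousLinearMap.fst ℝ ℝ ℝ + (2 * p.1 * p.2) • ContinuousLinearMap.snd ℝ ℝ ℝ)
    p := by
  have h1 : HasFDerivAt (fun q : ℝ × ℝ => q.1) (ContinuousLinearMap.fst ℝ ℝ ℝ) p := hasFDerivAt_fst
  have h2 : HasFDerivAt (fun q : ℝ × ℝ => q.2) (ContinuousLinearMap.snd ℝ ℝ ℝ) p := hasFDerivAt_snd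
  refine (h1.mul (h2.pow 2)).congr_fderiv ?_
  ext
  · simp
  · simp; ring

lemma model_fderiv (p ξ : ℝ × ℝ) : fderiv ℝ model p ξ = p.2 ^ 2 * ξ.1 + 2 * p.1 * p.2 * ξ.2 := by
  rw [(model_hasFDerivAt p).fderiv]
  simp

/-- the normal of the model, explicitly -/
lemma unitNormal_model (q : ℝ × ℝ) : unitNormal model q =
    (1 / √(1 + (q.2 ^ 2) ^ 2 + (2 * q.1 * q.2) ^ 2)) • !₂[-(q.2 ^ 2), -(2 * q.1 * q.2), 1] := by
  unfold unitNormal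
  rw [model_fderiv, model_fderiv]
  simp

lemma scal_differentiable (p : ℝ × ℝ) : DifferentiableAt ℝ
    (fun q : ℝ × ℝ => 1 / √(1 + (q.2 ^ 2) ^ 2 + (2 * q.1 * q.2) ^ 2)) p := by
  have h : 0 < 1 + (p.2 ^ 2) ^ 2 + (2 * p.1 * p.2) ^ 2 := by positivity
  have h1 : DifferentiableAt ℝ (fun q : ℝ × ℝ => 1 + (q.2 ^ 2) ^ 2 + (2 * q.1 * q.2) ^ 2) p := by
    fun_prop
  have h2 : DifferentiableAt ℝ (fun q : ℝ × ℝ => √(1 + (q.2 ^ 2) ^ 2 + (2 * q.1 * q.2) ^ 2)) p :=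
    h1.sqrt h.ne'
  simp only [one_div]
  exact h2.fun_inv (Real.sqrt_pos.mpr h).ne'

lemma unitNormal_model_fderiv (p : ℝ × ℝ) : DifferentiableAt ℝ (unitNormal model) p ∧
    ∃ c : ℝ, 0 < c ∧ ∃ c' : ℝ × ℝ → ℝ, ∀ ξ : ℝ × ℝ, fderiv ℝ (unitNormal model) p ξ =
      c' ξ • !₂[-(p.2 ^ 2), -(2 * p.1 * p.2), 1] +
      c • !₂[-(2 * p.2 * ξ.2), -(2 * p.2 * ξ.1 + 2 * p.1 * ξ.2), 0] := by
  have hs := scal_differentiable p
  have hpos : 0 < 1 / √(1 + (p.2 ^ 2) ^ 2 + (2 * p.1 * p.2) ^ 2) := by positivity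
  have hcoord : ∀ i : Fin 3, (fun q => unitNormal model q i) = fun q =>
      (1 / √(1 + (q.2 ^ 2) ^ 2 + (2 * q.1 * q.2) ^ 2)) *
        (!₂[-(q.2 ^ 2), -(2 * q.1 * q.2), 1] : EuclideanSpace ℝ (Fin 3)) i := by
    intro i; ext q; rw [unitNormal_model]; rfl
  have hq : ∀ i : Fin 3, DifferentiableAt ℝ (fun q : ℝ × ℝ =>
      (!₂[-(q.2 ^ 2), -(2 * q.1 * q.2), 1] : EuclideanSpace ℝ (Fin 3)) i) p := by
    intro i
    fin_cases i
    · change DifferentiableAt ℝ (fun q : ℝ × ℝ => -(q.2 ^ 2)) p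
      fun_prop
    · change DifferentiableAt ℝ (fun q : ℝ × ℝ => -(2 * q.1 * q.2)) p
      fun_prop
    · exact differentiableAt_const (1 : ℝ)
  have hd : DifferentiableAt ℝ (unitNormal model) p := by
    rw [differentiableAt_euclidean]
    intro i
    rw [hcoord i]
    exact hs.mul (hq i)
  refine ⟨hd, _, hpos, fun ξ => fderiv ℝ
    (fun q : ℝ × ℝ => 1 / √(1 + (q.2 ^ 2) ^ 2 + (2 * q.1 * q.2) ^ 2)) p ξ, ?_⟩
  intro ξ
  have h1 : HasFDerivAt (fun q : ℝ × ℝ => q.1) (ContinuousLinearMap.fst ℝ ℝ ℝ) p := hasFDerivAt_fst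
  have h2 : HasFDerivAt (fun q : ℝ × ℝ => q.2) (ContinuousLinearMap.snd ℝ ℝ ℝ) p := hasFDerivAt_snd
  ext i
  rw [fderiv_coord hd, hcoord i, fderiv_fun_mul hs (hq i)]
  fin_cases i
  · have h3 : fderiv ℝ (fun q : ℝ × ℝ => -(q.2 ^ 2)) p ξ = -(2 * p.2 * ξ.2) := by
      rw [(h2.pow 2).fun_neg.fderiv]; simp
    simp only [_root_.add_apply, _root_.smul_apply, smul_eq_mul,
      PiLp.add_apply, PiLp.smul_apply]
    change _ * fderiv ℝ (fun q : ℝ × ℝ => -(q.2 ^ 2)) p ξ + -(p.2 ^ 2) * _ =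
      _ * -(p.2 ^ 2) + _ * -(2 * p.2 * ξ.2)
    rw [h3]; ring
  · have h3 : fderiv ℝ (fun q : ℝ × ℝ => -(2 * q.1 * q.2)) p ξ
        = -(2 * p.2 * ξ.1 + 2 * p.1 * ξ.2) := by
      rw [((h1.const_mul 2).fun_mul h2).fun_neg.fderiv]; simp; ring
    simp only [_root_.add_apply, _root_.smul_apply, smul_eq_mul,
      PiLp.add_apply, PiLp.smul_apply]
    change _ * fderiv ℝ (fun q : ℝ × ℝ => -(2 * q.1 * q.2)) p ξ + -(2 * p.1 * p.2) * _ =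
      _ * -(2 * p.1 * p.2) + _ * -(2 * p.2 * ξ.1 + 2 * p.1 * ξ.2)
    rw [h3]; ring
  · have h3 : fderiv ℝ (fun q : ℝ × ℝ => (1 : ℝ)) p ξ = 0 := by
      simp
    simp only [_root_.add_apply, _root_.smul_apply, smul_eq_mul,
      PiLp.add_apply, PiLp.smul_apply]
    change _ * fderiv ℝ (fun q : ℝ × ℝ => (1 : ℝ)) p ξ + 1 * _ = _ * 1 + _ * 0
    rw [h3]; ring

end Pool.Agent.Lib.MP_9703cd_gt
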