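import Pool.Agent.Lib.MP_9703cd_gt.Geo
set_option autoImplicit false
open Real Set Filter Topology
open scoped InnerProductSpace ContDiff

namespace Pool.Agent.Lib.MP_9703cd_gt

section loc
variable {f : ℝ × ℝ → ℝ} {U : Set (ℝ × ℝ)}

lemma eq_near (hU : IsOpen U) (hf : ∀ q ∈ U, f q = model q) {q : ℝ × ℝ} (hq : q ∈ U) :
    f =ᶠ[𝓝 q] model :=
  Filter.eventually_of_mem (hU.mem_nhds hq) hf

lemma graphMap_near (hU : IsOpen U) (hf : ∀ q ∈ U, f q = model q) {q : ℝ × ℝ} (hq : q ∈ U) :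
    graphMap f =ᶠ[𝓝 q] graphMap model := by
  filter_upwards [hU.mem_nhds hq] with r hr
  simp only [graphMap, hf r hr]

lemma unitNormal_near (hU : IsOpen U) (hf : ∀ q ∈ U, f q = model q) {q : ℝ × ℝ} (hq : q ∈ U) :
    unitNormal f =ᶠ[𝓝 q] unitNormal model := by
  filter_upwards [hU.mem_nhds hq] with r hr
  simp only [unitNormal, (eq_near hU hf hr).fderiv_eq]

lemma graph_fderiv (hU : IsOpen U) (hf : ∀ q ∈ U, f q = model q) {q : ℝ × ℝ} (hq : q ∈ U)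
    (ξ : ℝ × ℝ) : DifferentiableAt ℝ (graphMap f) q ∧
      fderiv ℝ (graphMap f) q ξ = !₂[ξ.1, ξ.2, q.2 ^ 2 * ξ.1 + 2 * q.1 * q.2 * ξ.2] := by
  have hm : DifferentiableAt ℝ model q := (model_hasFDerivAt q).differentiableAt
  have hg := graphMap_near hU hf hq
  refine ⟨(graphMap_differentiableAt hm).congr_of_eventuallyEq hg, ?_⟩
  rw [hg.fderiv_eq, graphMap_fderiv hm, model_fderiv]

lemma normal_fderiv (hU : IsOpen U) (hf : ∀ q ∈ U, f q = model q) {q : ℝ × ℝ} (hq : q ∈ U) :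
    ∃ c : ℝ, 0 < c ∧ ∃ c' : ℝ × ℝ → ℝ, ∀ ξ : ℝ × ℝ, fderiv ℝ (unitNormal f) q ξ =
      c' ξ • !₂[-(q.2 ^ 2), -(2 * q.1 * q.2), 1] +
      c • !₂[-(2 * q.2 * ξ.2), -(2 * q.2 * ξ.1 + 2 * q.1 * ξ.2), 0] := by
  rw [(unitNormal_near hU hf hq).fderiv_eq]
  exact (unitNormal_model_fderiv q).2

/-- the second fundamental form of the model, up to a positive factor -/
lemma second_form (hU : IsOpen U) (hf : ∀ q ∈ U, f q = model q) {q : ℝ × ℝ} (hq : q ∈ U) :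
    ∃ c : ℝ, 0 < c ∧ ∀ ξ η : ℝ × ℝ,
      ⟪fderiv ℝ (unitNormal f) q ξ, fderiv ℝ (graphMap f) q η⟫_ℝ
      = - (2 * c * (q.2 * (ξ.1 * η.2 + ξ.2 * η.1) + q.1 * ξ.2 * η.2)) := by
  obtain ⟨c, hc, c', h⟩ := normal_fderiv hU hf hq
  refine ⟨c, hc, fun ξ η => ?_⟩
  rw [h, (graph_fderiv hU hf hq η).2, inner_eq]
  simp
  ring

lemma first_form (hU : IsOpen U) (hf : ∀ q ∈ U, f q = model q) {q : ℝ × ℝ} (hq : q ∈ U)
    (ξ η : ℝ × ℝ) :
      ⟪fderiv ℝ (graphMap f) q ξ, fderiv ℝ (graphMap f) q η⟫_ℝ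
      = (1 + q.2 ^ 4) * ξ.1 * η.1 + (2 * q.1 * q.2 ^ 3) * (ξ.1 * η.2 + η.1 * ξ.2)
        + (1 + 4 * q.1 ^ 2 * q.2 ^ 2) * ξ.2 * η.2 := by
  rw [(graph_fderiv hU hf hq ξ).2, (graph_fderiv hU hf hq η).2, inner_eq]
  simp
  ring

lemma not_umbilic (hU : IsOpen U) (hf : ∀ q ∈ U, f q = model q) {q : ℝ × ℝ} (hq : q ∈ U)
    (hpos : 0 < q.2) : ¬ IsUmbilic f q := by
  rintro ⟨k, hk⟩
  obtain ⟨c, hc, h⟩ := second_form hU hf hq
  have h1 := h (1, 0) (1, 0)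
  have h2 := h (1, 0) (0, 1)
  rw [hk, inner_smul_left, first_form hU hf hq] at h1 h2
  simp at h1 h2
  have hk0 : k = 0 := by
    rcases h1 with h1 | h1
    · exact h1
    · exfalso
      have : 0 < 1 + q.2 ^ 4 := by positivity
      exact this.ne' h1
  rw [hk0] at h2
  have : 0 < 2 * c * q.2 := by positivity
  linarith

/-- The graph of a function that agrees with `x y ^ 2` on an open subset of the open first
quadrant is not isothermal near any point over that subset. -/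
theorem not_isothermal (hU : IsOpen U) (hf : ∀ q ∈ U, f q = model q)
    (hpos : ∀ q ∈ U, 0 < q.1 ∧ 0 < q.2) {p : ℝ × ℝ} (hp : p ∈ U) : ¬ IsIsothermalNear f p := by
  rintro ⟨W, φ, lam, hW, ⟨w0, hw0, rfl⟩, hφ, h⟩
  have hW' : IsOpen (W ∩ φ ⁻¹' U) := hφ.continuousOn.isOpen_inter_preimage hW hU
  have hφ' : ContDiffOn ℝ 2 φ (W ∩ φ ⁻¹' U) := hφ.mono inter_subset_left
  have hd : ∀ w ∈ W ∩ φ ⁻¹' U, DifferentiableAt ℝ φ w := fun w hw =>
    ((hφ' w hw).contDiffAt (hW'.mem_nhds hw)).differentiableAt (by norm_num)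
  have hx : ∀ w ∈ W ∩ φ ⁻¹' U, ∀ ξ, fderiv ℝ (fun z => (φ z).1) w ξ = (fderiv ℝ φ w ξ).1 := by
    intro w hw ξ
    rw [(hd w hw).hasFDerivAt.fst.fderiv]; rfl
  have hy : ∀ w ∈ W ∩ φ ⁻¹' U, ∀ ξ, fderiv ℝ (fun z => (φ z).2) w ξ = (fderiv ℝ φ w ξ).2 := by
    intro w hw ξ
    rw [(hd w hw).hasFDerivAt.snd.fderiv]; rfl
  have hX : ∀ w ∈ W ∩ φ ⁻¹' U, ∀ ξ, fderiv ℝ (graphMap f ∘ φ) w ξ
      = fderiv ℝ (graphMap f) (φ w) (fderiv ℝ φ w ξ) := by
    intro w hw ξ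
    rw [fderiv_comp w (graph_fderiv hU hf hw.2 0).1 (hd w hw)]; rfl
  refine no_isothermal_core hW' (w0 := w0) ⟨hw0, hp⟩ (x := fun z => (φ z).1)
    (y := fun z => (φ z).2) (contDiff_fst.comp_contDiffOn hφ') (contDiff_snd.comp_contDiffOn hφ')
    (fun w hw => (hpos _ hw.2).1) (fun w hw => (hpos _ hw.2).2) (lam := lam)
    (fun w hw => (h w hw.1).1) rfl rfl rfl rfl ?_ ?_ ?_ ?_
  · intro w hw
    have := (h w hw.1).2.1
    rw [hX w hw, first_form hU hf hw.2] at this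
    simp only [hx w hw, hy w hw]
    linear_combination this
  · intro w hw
    have := (h w hw.1).2.2.1
    rw [hX w hw, first_form hU hf hw.2] at this
    simp only [hx w hw, hy w hw]
    linear_combination this
  · intro w hw
    have := (h w hw.1).2.2.2.1
    rw [hX w hw, hX w hw, first_form hU hf hw.2] at this
    simp only [hx w hw, hy w hw]
    linear_combination this
  · intro w hw
    obtain ⟨c, hc, h2⟩ := second_form hU hf hw.2
    have h12 := (h w hw.1).2.2.2.1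
    obtain ⟨-, k, hk⟩ := (h w hw.1).2.2.2.2.1
    have h3 := h2 (fderiv ℝ φ w (1, 0)) (fderiv ℝ φ w (0, 1))
    rw [hX w hw, hX w hw] at h12
    rw [hk, inner_smul_left, h12, mul_zero] at h3
    have h4 : (2 * c) * ((φ w).2 * ((fderiv ℝ φ w (1, 0)).1 * (fderiv ℝ φ w (0, 1)).2
      + (fderiv ℝ φ w (1, 0)).2 * (fderiv ℝ φ w (0, 1)).1)
      + (φ w).1 * (fderiv ℝ φ w (1, 0)).2 * (fderiv ℝ φ w (0, 1)).2) = 0 := by linarith
    have h5 := (mul_eq_zero.mp h4).resolve_left (by positivity)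
    simp only [hx w hw, hy w hw]
    linear_combination h5

end loc

end Pool.Agent.Lib.MP_9703cd_gt
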