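import Pool.Agent.Lib.MP_9703cd_gt.Defs
import Pool.Agent.Lib.MP_9703cd_gt.Gen
set_option autoImplicit false
open Real Set Filter Topology

namespace Pool.Agent.Lib.MP_9703cd_gt

lemma gen_mem {t : ℝ} (ht : t ∈ Icc (0 : ℝ) 1) : gen t ∈ Icc (0 : ℝ) 1 := by
  constructor
  · rw [← gen_zero]; exact gen_strictMono.monotone ht.1
  · rw [← gen_one]; exact gen_strictMono.monotone ht.2

lemma genInv_mem {t : ℝ} (ht : t ∈ Icc (0 : ℝ) 1) : genInv t ∈ Icc (0 : ℝ) 1 := by
  have h0 : genInv 0 = 0 := genInv_eq gen_zero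
  have h1 : genInv 1 = 1 := genInv_eq gen_one
  constructor
  · rw [← h0]; exact genInv_strictMono.monotone ht.1
  · rw [← h1]; exact genInv_strictMono.monotone ht.2

lemma T_isTNorm : IsContinuousTNorm T where
  maps := by
    intro x hx y hy
    have h1 := gen_mem hx
    have h2 := gen_mem hy
    exact genInv_mem ⟨mul_nonneg h1.1 h2.1, mul_le_one₀ h1.2 h2.1 h2.2⟩
  assoc := by
    intro x _ y _ z _
    apply gen_strictMono.injective
    rw [gen_T, gen_T]
    simp only [gen_T]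
    ring
  comm := by
    intro x _ y _
    simp only [T]
    rw [mul_comm]
  mono := by
    intro x hx x' hx' y hy y' hy' h1 h2
    apply genInv_strictMono.monotone
    exact mul_le_mul (gen_strictMono.monotone h1) (gen_strictMono.monotone h2)
      (gen_mem hy).1 (gen_mem hx').1
  one := by
    intro x _
    apply genInv_eq
    simp [gen_one]
  cont := (T_contDiff (n := 0)).continuous.continuousOn

lemma gen_pos {t : ℝ} (ht : 0 < t) : 0 < gen t := by
  rw [← gen_zero]; exact gen_strictMono ht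

lemma T_deriv_pos {p : ℝ × ℝ} (h1 : 0 < p.1) (h2 : 0 < p.2) :
    0 < fderiv ℝ T p (1, 0) ∧ 0 < fderiv ℝ T p (0, 1) := by
  have hT : DifferentiableAt ℝ T p := (T_contDiff (n := 1)).differentiable (by norm_num) p
  have hl := (gen_hasDerivAt (T p)).comp_hasFDerivAt p hT.hasFDerivAt
  have hf : HasFDerivAt (Prod.fst : ℝ × ℝ → ℝ) (ContinuousLinearMap.fst ℝ ℝ ℝ) p := hasFDerivAt_fst
  have hs : HasFDerivAt (Prod.snd : ℝ × ℝ → ℝ) (ContinuousLinearMap.snd ℝ ℝ ℝ) p := hasFDerivAt_snd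
  have hr := ((gen_hasDerivAt p.1).comp_hasFDerivAt p hf).mul
    ((gen_hasDerivAt p.2).comp_hasFDerivAt p hs)
  have he : (gen ∘ T) = ((gen ∘ Prod.fst) * (gen ∘ Prod.snd) : ℝ × ℝ → ℝ) := by
    ext q
    exact gen_T q
  rw [he] at hl
  have hu := hl.unique hr
  have hd := genDeriv_pos (T p)
  constructor
  · have h3 := congrArg (fun L : ℝ × ℝ →L[ℝ] ℝ => L (1, 0)) hu
    simp at h3
    have h4 : 0 < gen p.2 * genDeriv p.1 := mul_pos (gen_pos h2) (genDeriv_pos _)
    by_contra h5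
    have : genDeriv (T p) * (fderiv ℝ T p) (1, 0) ≤ 0 :=
      mul_nonpos_of_nonneg_of_nonpos hd.le (not_lt.mp h5)
    linarith
  · have h3 := congrArg (fun L : ℝ × ℝ →L[ℝ] ℝ => L (0, 1)) hu
    simp at h3
    have h4 : 0 < gen p.1 * genDeriv p.2 := mul_pos (gen_pos h1) (genDeriv_pos _)
    by_contra h5
    have : genDeriv (T p) * (fderiv ℝ T p) (0, 1) ≤ 0 :=
      mul_nonpos_of_nonneg_of_nonpos hd.le (not_lt.mp h5)
    linarith

end Pool.Agent.Lib.MP_9703cd_gt
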